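import Mathlib

/-!
# Current algebras over non-unital continuous inverse algebras: definitions
-/

open Filter Topology

namespace Q4.Curr

universe u w

/-- The topology of the unitization `A₊ = ℂ 1 ⊕ A` (the product topology). -/
noncomputable abbrev unitTop (A : Type u) [TopologicalSpace A] : TopologicalSpace (Unitization ℂ A) :=
  TopologicalSpace.induced (Unitization.toProd : Unitization ℂ A → ℂ × A) inferInstance

/-- A non-unital algebra `A` is a non-unital continuous inverse algebra if its unitization has an
open group of units and a continuous inversion. -/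
def IsNonUnitalCia (A : Type u) [NonUnitalCommRing A] [Module ℂ A] [IsScalarTower ℂ A A]
    [SMulCommClass ℂ A A] [TopologicalSpace A] : Prop :=
  @IsOpen _ (unitTop A) {x : Unitization ℂ A | IsUnit x} ∧
    @ContinuousOn _ _ (unitTop A) (unitTop A) Ring.inverse {x : Unitization ℂ A | IsUnit x}

/-- The exponential series of `a`, in the unitization, converges to `x`. -/
def ExpEq {A : Type u} [NonUnitalCommRing A] [Module ℂ A] [IsScalarTower ℂ A A]
    [SMulCommClass ℂ A A] [TopologicalSpace A] (a : A) (x : Unitization ℂ A) : Prop :=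
  Tendsto (fun n : ℕ => ∑ k ∈ Finset.range n, ((k.factorial : ℂ)⁻¹ • (a : Unitization ℂ A) ^ k))
    atTop (@nhds _ (unitTop A) x)

/-- The complex linear extension to `sl₂ ⊗ A` of a bounded unitary representation of
`su₂ ⊗ A_ℝ`: the three continuous linear maps `a ↦ π(a e)`, `a ↦ π(a f)`, `a ↦ π(a h)` into the
bounded operators satisfy the commutation relations, and `π(a e)* = π(a* f)`,
`π(a h)* = π(a* h)`. -/
structure IsBoundedUnitaryRep {A : Type u} [NonUnitalCommRing A] [StarRing A] [Module ℂ A]
    [TopologicalSpace A] {H : Type w} [NormedAddCommGroup H] [InnerProductSpace ℂ H]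
    [CompleteSpace H] (e f h : A →L[ℂ] (H →L[ℂ] H)) : Prop where
  he : ∀ a b, h a * e b - e b * h a = (2 : ℂ) • e (a * b)
  hf : ∀ a b, h a * f b - f b * h a = (-2 : ℂ) • f (a * b)
  ef : ∀ a b, e a * f b - f b * e a = h (a * b)
  hh : ∀ a b, h a * h b = h b * h a
  ee : ∀ a b, e a * e b = e b * e a
  ff : ∀ a b, f a * f b = f b * f a
  star_e : ∀ a, star (e a) = f (star a)
  star_h : ∀ a, star (h a) = h (star a)

end Q4.Curr
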