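import Pool.Agent.Q4.Curr.Defs

/-!
# The function `F(1 + c) = ⟨v, exp π(c (h + e - f)) v⟩`
-/

open Filter Topology

namespace Q4.Curr

set_option linter.unusedSectionVars false

universe u w

theorem exp_add' {B : Type u} [NormedRing B] [NormedAlgebra ℂ B] [CompleteSpace B] {x y : B}
    (h : Commute x y) : NormedSpace.exp (x + y) = NormedSpace.exp x * NormedSpace.exp y := by
  let _ : NormedAlgebra ℚ B := NormedAlgebra.restrictScalars ℚ ℂ B
  exact NormedSpace.exp_add_of_commute h

theorem exp_conj {B : Type u} [NormedRing B] [NormedAlgebra ℂ B] [CompleteSpace B]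
    (X Y0 Y1 Y2 : B) (h0 : X * Y0 - Y0 * X = Y1) (h1 : X * Y1 - Y1 * X = (2 : ℂ) • Y2)
    (h2 : X * Y2 = Y2 * X) :
    NormedSpace.exp X * Y0 = (Y0 + Y1 + Y2) * NormedSpace.exp X := by
  let W : ℂ → B := fun s => NormedSpace.exp (s • (-X)) * (Y0 + s • Y1 + s ^ 2 • Y2) *
    NormedSpace.exp (s • X)
  have hder : ∀ s, HasDerivAt W 0 s := by
    intro s
    have d1 := hasDerivAt_exp_smul_const (𝕂 := ℂ) (-X) s
    have d2 := hasDerivAt_exp_smul_const' (𝕂 := ℂ) X s
    have d3 : HasDerivAt (fun s : ℂ => Y0 + s • Y1 + s ^ 2 • Y2) (Y1 + (2 * s) • Y2) s := by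
      have e1 : HasDerivAt (fun s : ℂ => s • Y1) ((1 : ℂ) • Y1) s := (hasDerivAt_id s).smul_const Y1
      have e2 : HasDerivAt (fun s : ℂ => s ^ 2 • Y2) ((2 * s) • Y2) s := by
        have := (hasDerivAt_pow 2 s).smul_const Y2
        simpa using this
      refine (((hasDerivAt_const s Y0).fun_add e1).fun_add e2).congr_deriv ?_
      simp
    have d4 := (d1.fun_mul d3).fun_mul d2
    refine d4.congr_deriv ?_
    have key : -X * (Y0 + s • Y1 + s ^ 2 • Y2) + (Y1 + (2 * s) • Y2) +
        (Y0 + s • Y1 + s ^ 2 • Y2) * X = 0 := by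
      have h0' : Y0 * X = X * Y0 - Y1 := by rw [← h0]; abel
      have h1' : Y1 * X = X * Y1 - (2 : ℂ) • Y2 := by rw [← h1]; abel
      simp only [add_mul, mul_add, smul_mul_assoc, mul_smul_comm, neg_mul, h0', h1', ← h2]
      module
    calc _ = NormedSpace.exp (s • -X) * (-X * (Y0 + s • Y1 + s ^ 2 • Y2) + (Y1 + (2 * s) • Y2) +
        (Y0 + s • Y1 + s ^ 2 • Y2) * X) * NormedSpace.exp (s • X) := by
          simp only [mul_add, add_mul, mul_assoc]
      _ = 0 := by rw [key, mul_zero, zero_mul]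
  have hconst : W 1 = W 0 :=
    is_const_of_deriv_eq_zero (fun s => (hder s).differentiableAt) (fun s => (hder s).deriv) 1 0
  have hinv : NormedSpace.exp X * NormedSpace.exp (-X) = 1 := by
    rw [← exp_add' (Commute.refl X).neg_right, add_neg_cancel, NormedSpace.exp_zero]
  simp only [W, one_smul, zero_smul, one_pow, NormedSpace.exp_zero, one_mul, mul_one, ne_eq,
    OfNat.ofNat_ne_zero, not_false_eq_true, zero_pow, add_zero] at hconst
  calc NormedSpace.exp X * Y0 = NormedSpace.exp X *
        (NormedSpace.exp (-X) * (Y0 + Y1 + Y2) * NormedSpace.exp X) := by rw [hconst]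
    _ = (NormedSpace.exp X * NormedSpace.exp (-X)) * ((Y0 + Y1 + Y2) * NormedSpace.exp X) := by
        simp only [mul_assoc]
    _ = _ := by rw [hinv, one_mul]

variable {A : Type u} [NonUnitalCommRing A] [StarRing A] [Module ℂ A] [IsScalarTower ℂ A A]
  [SMulCommClass ℂ A A] [TopologicalSpace A] {H : Type w} [NormedAddCommGroup H]
  [InnerProductSpace ℂ H] [CompleteSpace H] {e f h : A →L[ℂ] (H →L[ℂ] H)}

/-- The operator `π(c (h + e - f))`. -/
noncomputable def N (e f h : A →L[ℂ] (H →L[ℂ] H)) : A →L[ℂ] (H →L[ℂ] H) := h + e - f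

theorem N_apply (e f h : A →L[ℂ] (H →L[ℂ] H)) (c : A) : N e f h c = h c + e c - f c := rfl

theorem N_comm (hπ : IsBoundedUnitaryRep e f h) (c d : A) :
    N e f h c * N e f h d = N e f h d * N e f h c := by
  rw [N_apply, N_apply]
  have h1 := hπ.he c d
  have h2 := hπ.hf c d
  have h3 := hπ.ef c d
  have h4 := hπ.he d c
  have h5 := hπ.hf d c
  have h6 := hπ.ef d c
  have h7 := hπ.hh c d
  have h8 := hπ.ee c d
  have h9 := hπ.ff c d
  rw [mul_comm d c] at h4 h5 h6
  rw [sub_eq_iff_eq_add] at h1 h2 h3 h4 h5 h6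
  simp only [add_mul, mul_add, sub_mul, mul_sub]
  rw [h1, h2, h3, h4, h5, h6, h7, h8, h9]
  module

/-- The function `c ↦ ⟨v, exp π(c (h + e - f)) v⟩ / ⟨v, v⟩`. -/
noncomputable def G (e f h : A →L[ℂ] (H →L[ℂ] H)) (v : H) (c : A) : ℂ :=
  inner ℂ v (NormedSpace.exp (N e f h c) v) / inner ℂ v v

theorem hasDerivAt_expN (hπ : IsBoundedUnitaryRep e f h) (c δ : A) (t : ℂ) :
    HasDerivAt (fun t : ℂ => NormedSpace.exp (N e f h (c + t • δ)))
      (N e f h δ * NormedSpace.exp (N e f h (c + t • δ))) t := by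
  have h1 : ∀ t : ℂ, NormedSpace.exp (N e f h (c + t • δ)) =
      NormedSpace.exp (t • N e f h δ) * NormedSpace.exp (N e f h c) := by
    intro t
    rw [← exp_add', map_add, map_smul, add_comm]
    exact (show Commute (N e f h δ) (N e f h c) from N_comm hπ δ c).smul_left t
  simp_rw [h1]
  refine ((hasDerivAt_exp_smul_const' (𝕂 := ℂ) (N e f h δ) t).mul_const _).congr_deriv ?_
  rw [mul_assoc]

theorem hasDerivAt_G (hπ : IsBoundedUnitaryRep e f h) (v : H) (c δ : A) (t : ℂ) :
    HasDerivAt (fun t : ℂ => G e f h v (c + t • δ))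
      (inner ℂ v (N e f h δ (NormedSpace.exp (N e f h (c + t • δ)) v)) / inner ℂ v v) t := by
  have h1 := hasDerivAt_expN hπ c δ t
  have h2 : HasDerivAt (fun t : ℂ => NormedSpace.exp (N e f h (c + t • δ)) v)
      ((N e f h δ * NormedSpace.exp (N e f h (c + t • δ))) v) t :=
    (h1.clm_apply (hasDerivAt_const t v)).congr_deriv (by simp)
  have h3 := ((innerSL ℂ v).hasFDerivAt.comp_hasDerivAt t h2).div_const (inner ℂ v v)
  exact h3

/-- The data of a highest weight vector. -/
structure IsHW (e f h : A →L[ℂ] (H →L[ℂ] H)) (v : H) (lam : A → ℂ) : Prop where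
  ne : v ≠ 0
  e_v : ∀ a, e a v = 0
  h_v : ∀ a, h a v = lam a • v

theorem inner_f (hπ : IsBoundedUnitaryRep e f h) {v : H} {lam : A → ℂ} (hv : IsHW e f h v lam)
    (x : A) (y : H) : inner ℂ v (f x y) = 0 := by
  have h1 : f x = star (e (star x)) := by rw [hπ.star_e, star_star]
  rw [h1, ContinuousLinearMap.star_eq_adjoint, ContinuousLinearMap.adjoint_inner_right, hv.e_v,
    inner_zero_left]

theorem inner_self_ne {v : H} {lam : A → ℂ} (hv : IsHW e f h v lam) : inner ℂ v v ≠ 0 :=
  inner_self_ne_zero.2 hv.ne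

theorem inner_h (hπ : IsBoundedUnitaryRep e f h) {v : H} {lam : A → ℂ} (hv : IsHW e f h v lam)
    (x : A) (y : H) : inner ℂ v (h x y) = lam x * inner ℂ v y := by
  have h1 : h x = star (h (star x)) := by rw [hπ.star_h, star_star]
  have h2 : ∀ y, inner ℂ v (h x y) = (starRingEnd ℂ) (lam (star x)) * inner ℂ v y := by
    intro y
    rw [h1, ContinuousLinearMap.star_eq_adjoint, ContinuousLinearMap.adjoint_inner_right, hv.h_v,
      inner_smul_left]
  have h3 := h2 v
  rw [hv.h_v, inner_smul_right] at h3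
  rw [h2 y, ← mul_right_cancel₀ (inner_self_ne hv) h3]

theorem lam_add {v : H} {lam : A → ℂ} (hv : IsHW e f h v lam) (x y : A) :
    lam (x + y) = lam x + lam y := by
  have h1 : lam (x + y) • v = (lam x + lam y) • v := by
    rw [← hv.h_v, map_add, add_apply, hv.h_v, hv.h_v, add_smul]
  exact smul_left_injective ℂ hv.ne h1

theorem lam_smul {v : H} {lam : A → ℂ} (hv : IsHW e f h v lam) (t : ℂ) (x : A) :
    lam (t • x) = t * lam x := by
  have h1 : lam (t • x) • v = (t * lam x) • v := by
    rw [← hv.h_v, map_smul, smul_apply, hv.h_v, smul_smul]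
  exact smul_left_injective ℂ hv.ne h1

theorem inner_N (hπ : IsBoundedUnitaryRep e f h) {v : H} {lam : A → ℂ} (hv : IsHW e f h v lam)
    (c q δ : A) (hq : c - q - c * q = 0) :
    inner ℂ v (N e f h δ (NormedSpace.exp (N e f h c) v)) =
      lam (δ - δ * q) * inner ℂ v (NormedSpace.exp (N e f h c) v) := by
  set z : A := δ - (δ * q + δ * q) + δ * q * q with hz
  have hinj := Unitization.inr_injective (R := ℂ) (A := A)
  have hqU : (c : Unitization ℂ A) - q - c * q = 0 := by
    have := congrArg (fun x : A => (x : Unitization ℂ A)) hq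
    simpa using this
  have hzU : (z : Unitization ℂ A) = δ - (δ * q + δ * q) + δ * q * q := by
    rw [hz]
    simp
  have hz1 : z + (c * z + c * z) + c * (c * z) = δ := by
    apply hinj
    simp only [Unitization.inr_add, Unitization.inr_mul]
    rw [hzU]
    linear_combination (2 * (δ : Unitization ℂ A) + δ * (c - q - c * q)) * hqU
  have hz2 : c * z + c * (c * z) = δ * q := by
    apply hinj
    simp only [Unitization.inr_add, Unitization.inr_mul]
    rw [hzU]
    linear_combination ((δ : Unitization ℂ A) * (1 + c - c * q)) * hqU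
  clear_value z
  -- the commutators
  have h0 : N e f h c * e z - e z * N e f h c = (2 : ℂ) • e (c * z) + h (c * z) := by
    have h1 := hπ.he c z
    have h2 := hπ.ee c z
    have h3 := hπ.ef z c
    rw [mul_comm z c] at h3
    rw [sub_eq_iff_eq_add] at h1 h3
    rw [N_apply]
    simp only [add_mul, mul_add, sub_mul, mul_sub]
    rw [h1, h2, h3]
    module
  have h1 : N e f h c * ((2 : ℂ) • e (c * z) + h (c * z)) -
      ((2 : ℂ) • e (c * z) + h (c * z)) * N e f h c = (2 : ℂ) • N e f h (c * (c * z)) := by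
    have h1 := hπ.he c (c * z)
    have h2 := hπ.ee c (c * z)
    have h3 := hπ.ef (c * z) c
    have h4 := hπ.hh c (c * z)
    have h5 := hπ.he (c * z) c
    have h6 := hπ.hf (c * z) c
    rw [mul_comm (c * z) c] at h3 h5 h6
    rw [sub_eq_iff_eq_add] at h1 h3 h5 h6
    rw [N_apply, N_apply]
    simp only [add_mul, mul_add, sub_mul, mul_sub, smul_mul_assoc, mul_smul_comm]
    rw [h1, h2, h3, h4, h5, h6]
    module
  have hconj := exp_conj (N e f h c) (e z) _ _ h0 h1 (N_comm hπ c _)
  have happ := congrArg (fun T : H →L[ℂ] H => inner ℂ v (T v)) hconj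
  set u : H := NormedSpace.exp (N e f h c) v with hu
  have hl : (NormedSpace.exp (N e f h c) * e z) v = 0 := by
    rw [mul_apply_eq_comp, hv.e_v, map_zero]
  have hr : ((e z + ((2 : ℂ) • e (c * z) + h (c * z)) + N e f h (c * (c * z))) *
      NormedSpace.exp (N e f h c)) v = e δ u + h (δ * q) u - f (c * (c * z)) u := by
    rw [mul_apply_eq_comp, ← hu, ← hz2, N_apply]
    have h2 : e δ = e z + (2 : ℂ) • e (c * z) + e (c * (c * z)) := by
      rw [← hz1]
      simp only [map_add, two_smul]
    rw [h2]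
    simp only [map_add, add_apply, sub_apply, smul_apply]
    abel
  simp only [hl, hr, inner_zero_right, inner_add_right, inner_sub_right] at happ
  rw [inner_f hπ hv, inner_h hπ hv, sub_zero] at happ
  have h3 : inner ℂ v (N e f h δ u) = lam δ * inner ℂ v u + inner ℂ v (e δ u) := by
    rw [N_apply]
    simp only [add_apply, sub_apply, inner_add_right, inner_sub_right]
    rw [inner_f hπ hv, inner_h hπ hv, sub_zero]
  have h4 : lam (δ - δ * q) = lam δ - lam (δ * q) := by
    have := lam_add hv (δ - δ * q) (δ * q)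
    rw [sub_add_cancel] at this
    rw [this]
    ring
  rw [h3, h4]
  linear_combination -happ

end Q4.Curr
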