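import Mathlib

/-!
# A summation lemma
-/

open Filter Topology

namespace Q4.Curr

/-- The weights `n! / ((n - k)! n ^ k)`. -/
noncomputable def wt (n k : ℕ) : ℝ := (n.descFactorial k : ℝ) / (n : ℝ) ^ k

theorem wt_zero (n : ℕ) : wt n 0 = 1 := by simp [wt]

theorem wt_nonneg (n k : ℕ) : 0 ≤ wt n k := by unfold wt; positivity

theorem wt_big (n : ℕ) : wt n (n + 1) = 0 := by
  simp [wt]

theorem wt_succ (n k : ℕ) (hn : 0 < n) : wt n (k + 1) = wt n k * (((n - k : ℕ) : ℝ) / n) := by
  have : (n : ℝ) ≠ 0 := by exact_mod_cast hn.ne'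
  rw [wt, wt, Nat.descFactorial_succ]
  push_cast
  field_simp
  ring

theorem wt_anti (n k : ℕ) (hn : 0 < n) : wt n (k + 1) ≤ wt n k := by
  rw [wt_succ n k hn]
  have h0 : (0 : ℝ) < n := by exact_mod_cast hn
  have h1 : ((n - k : ℕ) : ℝ) / n ≤ 1 := by
    rw [div_le_one h0]
    exact_mod_cast Nat.sub_le n k
  have h2 := wt_nonneg n k
  nlinarith

theorem wt_tendsto (k : ℕ) : Tendsto (fun n => wt n k) atTop (𝓝 1) := by
  induction k with
  | zero => simp only [wt_zero]; exact tendsto_const_nhds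
  | succ k ih =>
    have h1 : Tendsto (fun n : ℕ => ((n - k : ℕ) : ℝ) / n) atTop (𝓝 1) := by
      have h2 : Tendsto (fun n : ℕ => 1 - (k : ℝ) / n) atTop (𝓝 (1 - 0)) :=
        tendsto_const_nhds.sub (tendsto_const_div_atTop_nhds_zero_nat (k : ℝ))
      rw [sub_zero] at h2
      refine h2.congr' ?_
      filter_upwards [eventually_ge_atTop (k + 1)] with n hn
      have h3 : (n : ℝ) ≠ 0 := by
        have : n ≠ 0 := by omega
        exact_mod_cast this
      rw [Nat.cast_sub (by omega)]
      field_simp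
    have h2 := ih.mul h1
    rw [one_mul] at h2
    refine h2.congr' ?_
    filter_upwards [eventually_ge_atTop 1] with n hn
    rw [wt_succ n k hn]

theorem toeplitz {E : Type*} [NormedAddCommGroup E] [NormedSpace ℝ E] (u : ℕ → E) (L : E)
    (hu : Tendsto (fun m => ∑ k ∈ Finset.range m, u k) atTop (𝓝 L)) :
    Tendsto (fun n => ∑ k ∈ Finset.range (n + 1), wt n k • u k) atTop (𝓝 L) := by
  set T : ℕ → E := fun m => ∑ k ∈ Finset.range m, u k with hT
  -- summation by parts
  have hparts : ∀ n m, ∑ k ∈ Finset.range m, wt n k • u k =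
      ∑ k ∈ Finset.range m, (wt n k - wt n (k + 1)) • (T (k + 1) - L) +
        wt n m • (T m - L) + (wt n 0) • L := by
    intro n m
    induction m with
    | zero => simp [hT]
    | succ m ih =>
      rw [Finset.sum_range_succ, Finset.sum_range_succ, ih]
      have h1 : T (m + 1) = T m + u m := Finset.sum_range_succ _ _
      rw [h1]
      module
  have hmain : ∀ n, ∑ k ∈ Finset.range (n + 1), wt n k • u k - L =
      ∑ k ∈ Finset.range (n + 1), (wt n k - wt n (k + 1)) • (T (k + 1) - L) := by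
    intro n
    rw [hparts, wt_big, wt_zero, zero_smul, one_smul, add_zero, add_sub_cancel_right]
  rw [← tendsto_sub_nhds_zero_iff]
  simp_rw [hmain]
  rw [tendsto_zero_iff_norm_tendsto_zero]
  -- boundedness
  have hTL : Tendsto (fun k => ‖T (k + 1) - L‖) atTop (𝓝 0) := by
    have h1 := (hu.comp (tendsto_add_atTop_nat 1)).sub_const L
    rw [sub_self] at h1
    exact tendsto_zero_iff_norm_tendsto_zero.1 h1
  obtain ⟨M, hM⟩ : ∃ M, ∀ k, ‖T (k + 1) - L‖ ≤ M := by
    obtain ⟨M, hM⟩ := hTL.bddAbove_range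
    exact ⟨M, fun k => hM ⟨k, rfl⟩⟩
  have hM0 : 0 ≤ M := (norm_nonneg _).trans (hM 0)
  rw [Metric.tendsto_atTop]
  intro ε hε
  obtain ⟨K, hK⟩ := (hTL.eventually_lt_const (half_pos hε)).exists_forall_of_atTop
  have h2 : Tendsto (fun n => M * (wt n 0 - wt n K)) atTop (𝓝 0) := by
    have := ((wt_tendsto 0).sub (wt_tendsto K)).const_mul M
    rwa [sub_self, mul_zero] at this
  obtain ⟨n0, hn0⟩ := (h2.eventually_lt_const (half_pos hε)).exists_forall_of_atTop
  refine ⟨max n0 (K + 1), fun n hn => ?_⟩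
  have hn1 : n0 ≤ n := (le_max_left _ _).trans hn
  have hn2 : K + 1 ≤ n := (le_max_right _ _).trans hn
  have hnpos : 0 < n := by omega
  rw [Real.dist_eq, sub_zero, abs_of_nonneg (norm_nonneg _)]
  have hw : ∀ k, 0 ≤ wt n k - wt n (k + 1) := fun k => sub_nonneg.2 (wt_anti n k hnpos)
  have htel : ∀ a b, a ≤ b → ∑ k ∈ Finset.Ico a b, (wt n k - wt n (k + 1)) = wt n a - wt n b := by
    intro a b hab
    induction b, hab using Nat.le_induction with
    | base => simp
    | succ b hb ih =>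
      rw [Finset.sum_Ico_succ_top hb, ih]
      ring
  calc ‖∑ k ∈ Finset.range (n + 1), (wt n k - wt n (k + 1)) • (T (k + 1) - L)‖
      ≤ ∑ k ∈ Finset.range (n + 1), (wt n k - wt n (k + 1)) * ‖T (k + 1) - L‖ := by
        refine (norm_sum_le _ _).trans (Finset.sum_le_sum fun k _ => ?_)
        rw [norm_smul, Real.norm_of_nonneg (hw k)]
    _ = ∑ k ∈ Finset.Ico 0 K, (wt n k - wt n (k + 1)) * ‖T (k + 1) - L‖ +
        ∑ k ∈ Finset.Ico K (n + 1), (wt n k - wt n (k + 1)) * ‖T (k + 1) - L‖ := by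
        rw [Finset.range_eq_Ico, Finset.sum_Ico_consecutive _ (Nat.zero_le K) (by omega)]
    _ ≤ ∑ k ∈ Finset.Ico 0 K, (wt n k - wt n (k + 1)) * M +
        ∑ k ∈ Finset.Ico K (n + 1), (wt n k - wt n (k + 1)) * (ε / 2) := by
        refine add_le_add (Finset.sum_le_sum fun k _ => ?_) (Finset.sum_le_sum fun k hk => ?_)
        · exact mul_le_mul_of_nonneg_left (hM k) (hw k)
        · exact mul_le_mul_of_nonneg_left (hK k (Finset.mem_Ico.1 hk).1).le (hw k)
    _ = M * (wt n 0 - wt n K) + wt n K * (ε / 2) := by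
        rw [← Finset.sum_mul, ← Finset.sum_mul, htel 0 K (Nat.zero_le K), htel K (n + 1) (by omega),
          wt_big]
        ring
    _ < ε := by
        have h3 := hn0 n hn1
        have h4 : wt n K ≤ 1 := by
          have := htel 0 K (Nat.zero_le K)
          have h5 : 0 ≤ ∑ k ∈ Finset.Ico 0 K, (wt n k - wt n (k + 1)) :=
            Finset.sum_nonneg fun k _ => hw k
          rw [this, wt_zero] at h5
          linarith
        have := wt_nonneg n K
        nlinarith

end Q4.Curr
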