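import Pool.Agent.Q4.Curr.Mult
import Pool.Agent.Q4.Curr.Toeplitz

/-!
# The values on exponentials and the main theorem
-/

open Filter Topology

namespace Q4.Curr

set_option linter.unusedSectionVars false

universe u w

variable {A : Type u} [NonUnitalCommRing A] [StarRing A] [Module ℂ A] [IsScalarTower ℂ A A]
  [SMulCommClass ℂ A A] [TopologicalSpace A] {H : Type w} [NormedAddCommGroup H]
  [InnerProductSpace ℂ H] [CompleteSpace H] {e f h : A →L[ℂ] (H →L[ℂ] H)}

theorem Q_mem (hA : IsNonUnitalCia A) : Q A ∈ 𝓝 (0 : A) := by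
  have h1 : Continuous[_, unitTop A] (fun a : A => (1 : Unitization ℂ A) + a) := by
    rw [continuous_induced_rng]
    have : ((Unitization.toProd : Unitization ℂ A → ℂ × A) ∘
        fun a : A => (1 : Unitization ℂ A) + a) = fun a : A => ((1 : ℂ), a) := by
      funext a
      have h1 : ((1 : Unitization ℂ A) + a).fst = 1 := by simp
      have h2 : ((1 : Unitization ℂ A) + a).snd = a := by simp
      exact Prod.ext h1 h2
    rw [this]
    exact continuous_const.prodMk continuous_id
  have h2 : IsOpen ((fun a : A => (1 : Unitization ℂ A) + a) ⁻¹' {x | IsUnit x}) :=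
    @IsOpen.preimage _ _ _ (unitTop A) _ h1 _ hA.1
  refine Filter.mem_of_superset (h2.mem_nhds (show IsUnit ((1 : Unitization ℂ A) + (0 : A)) by
    rw [Unitization.inr_zero, add_zero]; exact isUnit_one)) ?_
  intro c hc
  obtain ⟨y, hy⟩ := (show IsUnit ((1 : Unitization ℂ A) + c) from hc).exists_right_inv
  refine ⟨-y.snd, ?_⟩
  have h3 := congrArg (fun z : Unitization ℂ A => z.fst) hy
  have h4 := congrArg (fun z : Unitization ℂ A => z.snd) hy
  simp only [Unitization.fst_mul, Unitization.fst_add, Unitization.fst_one, Unitization.fst_inr,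
    add_zero, one_mul] at h3
  simp only [Unitization.snd_mul, Unitization.fst_add, Unitization.fst_one, Unitization.fst_inr,
    Unitization.snd_add, Unitization.snd_one, Unitization.snd_inr, h3, add_zero, zero_add,
    one_smul] at h4
  rw [mul_neg, sub_neg_eq_add, sub_neg_eq_add, ← h4]
  abel

theorem G_pow (hπ : IsBoundedUnitaryRep e f h) {v : H} {lam : A → ℂ}
    (hv : IsHW e f h v lam) [ContinuousSMul ℂ A] (hQ : Q A ∈ 𝓝 (0 : A)) (b : A) (n : ℕ) :
    G e f h v (((b : Unitization ℂ A) + 1) ^ n).snd = G e f h v b ^ n := by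
  induction n with
  | zero => simp [G_zero hv]
  | succ n ih =>
    rw [pow_succ, pow_succ, ← ih, ← mult hπ hv hQ]
    congr 1
    have h1 : (((b : Unitization ℂ A) + 1) ^ n).fst = 1 := by
      have := map_pow (Unitization.fstHom ℂ A) ((b : Unitization ℂ A) + 1) n
      change (((b : Unitization ℂ A) + 1) ^ n).fst = (((b : Unitization ℂ A) + 1).fst) ^ n at this
      rw [this]
      simp
    rw [Unitization.snd_mul, h1]
    simp only [Unitization.snd_add, Unitization.snd_inr, Unitization.snd_one, add_zero, one_smul,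
      Unitization.fst_add, Unitization.fst_inr, Unitization.fst_one, zero_add]
    abel

theorem G_exp (hπ : IsBoundedUnitaryRep e f h) {v : H} {lam : A → ℂ}
    (hv : IsHW e f h v lam) [ContinuousSMul ℂ A] (hQ : Q A ∈ 𝓝 (0 : A)) (a : A)
    (x : Unitization ℂ A) (hx : ExpEq a x) : G e f h v x.snd = Complex.exp (lam a) := by
  -- the limit of the powers
  have h1 : Tendsto (fun n : ℕ => G e f h v ((n : ℂ)⁻¹ • a) ^ n) atTop
      (𝓝 (Complex.exp (lam a))) := by
    have h2 : HasDerivAt (fun t : ℂ => G e f h v (0 + t • a)) (lam a) 0 := by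
      refine (hasDerivAt_G' hπ hv 0 a 0 0 (by simp)).congr_deriv ?_
      simp [G_zero hv]
    have h3 := (hasDerivAt_iff_tendsto_slope.1 h2).comp
      (show Tendsto (fun n : ℕ => (n : ℂ)⁻¹) atTop (𝓝[≠] 0) by
        rw [tendsto_nhdsWithin_iff]
        refine ⟨tendsto_inv_atTop_nhds_zero_nat, ?_⟩
        filter_upwards [eventually_ge_atTop 1] with n hn
        have : (n : ℂ) ≠ 0 := by
          have : n ≠ 0 := by omega
          exact_mod_cast this
        exact inv_ne_zero this)
    have h4 := Complex.tendsto_one_add_pow_exp_of_tendsto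
      (g := fun n : ℕ => G e f h v ((n : ℂ)⁻¹ • a) - 1) (t := lam a) (by
        refine h3.congr fun n => ?_
        simp [slope, G_zero hv])
    refine h4.congr fun n => ?_
    rw [add_sub_cancel]
  -- the powers converge to the exponential
  have h5 : Tendsto (fun n : ℕ => N e f h ((((((n : ℂ)⁻¹ • a : A) : Unitization ℂ A) + 1) ^ n).snd))
      atTop (𝓝 (N e f h x.snd)) := by
    let Φ : Unitization ℂ A →ₗ[ℂ] (H →L[ℂ] H) := (N e f h).toLinearMap ∘ₗ Unitization.sndHom ℂ ℂ A
    have hsnd : Continuous[unitTop A, _] (fun z : Unitization ℂ A => z.snd) := by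
      let _ : TopologicalSpace (Unitization ℂ A) := unitTop A
      exact continuous_snd.comp continuous_induced_dom
    have h6 : Tendsto (fun m => ∑ k ∈ Finset.range m,
        Φ ((k.factorial : ℂ)⁻¹ • (a : Unitization ℂ A) ^ k)) atTop (𝓝 (N e f h x.snd)) := by
      have h7 := (@Continuous.tendsto _ _ (unitTop A) _ _ hsnd x).comp hx
      have h8 := ((N e f h).continuous.tendsto x.snd).comp h7
      refine h8.congr fun m => ?_
      rw [← map_sum]
      rfl
    refine (toeplitz _ _ h6).congr' ?_
    filter_upwards [eventually_ge_atTop 1] with n hn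
    have hn0 : (n : ℂ) ≠ 0 := by
      have : n ≠ 0 := by omega
      exact_mod_cast this
    change _ = Φ (((((n : ℂ)⁻¹ • a : A) : Unitization ℂ A) + 1) ^ n)
    rw [add_pow, map_sum]
    refine Finset.sum_congr rfl fun k _ => ?_
    rw [one_pow, mul_one, Unitization.inr_smul, smul_pow, smul_mul_assoc, ← nsmul_eq_mul', 
      ← Nat.cast_smul_eq_nsmul ℂ, smul_smul, map_smul, map_smul, wt,
      Nat.descFactorial_eq_factorial_mul_choose]
    have h9 : (k.factorial : ℂ) ≠ 0 := by exact_mod_cast k.factorial_ne_zero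
    rw [← Complex.coe_smul, smul_smul]
    congr 1
    push_cast
    rw [inv_pow]
    field_simp
  have h10 : Tendsto (fun n : ℕ => G e f h v
      (((((n : ℂ)⁻¹ • a : A) : Unitization ℂ A) + 1) ^ n).snd) atTop (𝓝 (G e f h v x.snd)) := by
    let _ : NormedAlgebra ℚ (H →L[ℂ] H) := NormedAlgebra.restrictScalars ℚ ℂ _
    have hc : Continuous fun T : H →L[ℂ] H => inner ℂ v (NormedSpace.exp T v) / inner ℂ v v :=
      (Continuous.inner continuous_const
        (NormedSpace.exp_continuous.clm_apply continuous_const)).div_const _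
    exact (hc.tendsto _).comp h5
  refine tendsto_nhds_unique h10 (h1.congr fun n => ?_)
  rw [G_pow hπ hv hQ]

theorem main [ContinuousSMul ℂ A] (hA : IsNonUnitalCia A)
    (hπ : IsBoundedUnitaryRep e f h) (v : H) (hv : v ≠ 0) (hev : ∀ a, e a v = 0) (lam : A → ℂ)
    (hlam : ∀ a, h a v = lam a • v) :
    ∃ F : Unitization ℂ A → ℂ,
      (∀ a b : A, F ((1 + a) * (1 + b)) = F (1 + a) * F (1 + b)) ∧
      (Continuous fun a : A => F (1 + a)) ∧
      (∀ a b : A, Differentiable ℂ fun t : ℂ => F (1 + (a + t • b : A))) ∧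
      ∀ (a : A) (x : Unitization ℂ A), ExpEq a x → F x = Complex.exp (lam a) := by
  have hw : IsHW e f h v lam := ⟨hv, hev, hlam⟩
  have hQ := Q_mem hA
  have hs : ∀ a : A, ((1 : Unitization ℂ A) + a).snd = a := fun a => by simp
  refine ⟨fun x => G e f h v x.snd, fun a b => ?_, ?_, fun a b => ?_, fun a x hx => ?_⟩
  · simp only [hs]
    rw [← mult hπ hw hQ]
    congr 1
    simp
    abel
  · simp only [hs]
    exact continuous_G v
  · simp only [hs]
    exact differentiable_G hπ v a b
  · exact G_exp hπ hw hQ a x hx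

end Q4.Curr
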