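import Pool.Agent.Q4.Curr.Deriv

/-!
# Multiplicativity
-/

open Filter Topology

namespace Q4.Curr

set_option linter.unusedSectionVars false

universe u w

variable {A : Type u} [NonUnitalCommRing A] [StarRing A] [Module ℂ A] [IsScalarTower ℂ A A]
  [SMulCommClass ℂ A A] [TopologicalSpace A] {H : Type w} [NormedAddCommGroup H]
  [InnerProductSpace ℂ H] [CompleteSpace H] {e f h : A →L[ℂ] (H →L[ℂ] H)}

/-- The set of quasi-invertible elements. -/
def Q (A : Type u) [NonUnitalCommRing A] : Set A := {c | ∃ q, c - q - c * q = 0}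

theorem G_zero {v : H} {lam : A → ℂ} (hv : IsHW e f h v lam) : G e f h v 0 = 1 := by
  rw [G, map_zero, NormedSpace.exp_zero]
  exact div_self (inner_self_ne hv)

theorem differentiable_G (hπ : IsBoundedUnitaryRep e f h) (v : H) (c δ : A) :
    Differentiable ℂ fun t : ℂ => G e f h v (c + t • δ) :=
  fun t => (hasDerivAt_G hπ v c δ t).differentiableAt

theorem continuous_G (v : H) : Continuous (G e f h v) := by
  let _ : NormedAlgebra ℚ (H →L[ℂ] H) := NormedAlgebra.restrictScalars ℚ ℂ _
  have h1 : Continuous fun c : A => NormedSpace.exp (N e f h c) :=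
    NormedSpace.exp_continuous.comp (N e f h).continuous
  exact (Continuous.inner continuous_const (h1.clm_apply continuous_const)).div_const _

theorem hasDerivAt_G' (hπ : IsBoundedUnitaryRep e f h) {v : H} {lam : A → ℂ}
    (hv : IsHW e f h v lam) (c δ q : A) (t : ℂ) (hq : (c + t • δ) - q - (c + t • δ) * q = 0) :
    HasDerivAt (fun t : ℂ => G e f h v (c + t • δ))
      (lam (δ - δ * q) * G e f h v (c + t • δ)) t := by
  refine (hasDerivAt_G hπ v c δ t).congr_deriv ?_
  rw [inner_N hπ hv _ q δ hq, G, mul_div_assoc]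

theorem mult_aux (hπ : IsBoundedUnitaryRep e f h) {v : H} {lam : A → ℂ}
    (hv : IsHW e f h v lam) [ContinuousSMul ℂ A] (hQ : Q A ∈ 𝓝 (0 : A)) (x y : A) (hx : x ∈ Q A) :
    G e f h v (x + (y + x * y)) = G e f h v x * G e f h v y := by
  obtain ⟨p, hp⟩ := hx
  set g : ℂ → ℂ := fun s => G e f h v (x + s • (y + x * y)) with hg
  set k : ℂ → ℂ := fun s => G e f h v (0 + s • y) with hk
  have hk0 : k 0 = 1 := by
    rw [hk]
    simp only [zero_smul, add_zero]
    exact G_zero hv
  have hg0 : g 0 = G e f h v x := by
    rw [hg]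
    simp only [zero_smul, add_zero]
  have hkd : Differentiable ℂ k := differentiable_G hπ v 0 y
  have hgd : Differentiable ℂ g := differentiable_G hπ v x _
  have hev1 : ∀ᶠ s : ℂ in 𝓝 0, s • y ∈ Q A := by
    have : Tendsto (fun s : ℂ => s • y) (𝓝 0) (𝓝 0) := by
      have h1 : Continuous fun s : ℂ => s • y := continuous_id.smul continuous_const
      have h2 := h1.tendsto 0
      rwa [zero_smul] at h2
    exact this hQ
  have hev2 : ∀ᶠ s : ℂ in 𝓝 0, k s ≠ 0 := by
    have h1 := hkd.continuous.continuousAt (x := (0 : ℂ))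
    exact h1.eventually_ne (by rw [hk0]; exact one_ne_zero)
  obtain ⟨ε, hε, hball⟩ := Metric.eventually_nhds_iff_ball.1 (hev1.and hev2)
  have hder : ∀ s ∈ Metric.ball (0 : ℂ) ε, HasDerivAt (fun s => g s / k s) 0 s := by
    intro s hs
    obtain ⟨⟨q, hq⟩, hks⟩ := hball s hs
    have hinj := Unitization.inr_injective (R := ℂ) (A := A)
    have hpU : (x : Unitization ℂ A) - p - x * p = 0 := by
      have := congrArg (fun x : A => (x : Unitization ℂ A)) hp
      simpa using this
    have hqU : ((s • y : A) : Unitization ℂ A) - q - (s • y : A) * q = 0 := by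
      have := congrArg (fun x : A => (x : Unitization ℂ A)) hq
      simpa using this
    have h1 : HasDerivAt k (lam (y - y * q) * k s) s := by
      refine hasDerivAt_G' hπ hv 0 y q s ?_
      rw [zero_add]
      exact hq
    have hsm : s • (y + x * y) = s • y + x * (s • y) := by
      rw [smul_add, mul_smul_comm]
    have h2 : HasDerivAt g (lam (y - y * q) * g s) s := by
      have h3 := hasDerivAt_G' hπ hv x (y + x * y) (p + q - p * q) s (by
        rw [hsm]
        apply hinj
        simp only [Unitization.inr_add, Unitization.inr_mul, Unitization.inr_sub,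
          Unitization.inr_zero]
        linear_combination (1 + ((s • y : A) : Unitization ℂ A)) * (1 - (q : Unitization ℂ A)) *
          hpU + hqU)
      have h4 : (y + x * y) - (y + x * y) * (p + q - p * q) = y - y * q := by
        apply hinj
        simp only [Unitization.inr_add, Unitization.inr_mul, Unitization.inr_sub]
        linear_combination (y : Unitization ℂ A) * (1 - (q : Unitization ℂ A)) * hpU
      rw [h4] at h3
      exact h3
    refine (h2.fun_div h1 hks).congr_deriv ?_
    ring
  have hconst : ∀ s ∈ Metric.ball (0 : ℂ) ε, g s = G e f h v x * k s := by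
    intro s hs
    have h0 : (0 : ℂ) ∈ Metric.ball (0 : ℂ) ε := Metric.mem_ball_self hε
    have h1 := (convex_ball (0 : ℂ) ε).is_const_of_fderivWithin_eq_zero (𝕜 := ℂ)
      (f := fun s => g s / k s)
      (fun t ht => (hder t ht).differentiableAt.differentiableWithinAt)
      (fun t ht => by
        rw [fderivWithin_of_isOpen Metric.isOpen_ball ht]
        have := (hder t ht).hasFDerivAt.fderiv
        rw [this]
        ext
        simp) hs h0
    change g s / k s = g 0 / k 0 at h1
    rw [hk0, div_one, div_eq_iff (hball s hs).2, hg0] at h1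
    exact h1
  have heq : g = fun s => G e f h v x * k s := by
    refine AnalyticOnNhd.eq_of_eventuallyEq (𝕜 := ℂ) (z₀ := 0)
      (fun z _ => hgd.analyticAt z) (fun z _ => (hkd.const_mul _).analyticAt z) ?_
    exact Filter.mem_of_superset (Metric.ball_mem_nhds 0 hε) hconst
  have h1 := congrFun heq 1
  simpa [hg, hk] using h1

theorem mult (hπ : IsBoundedUnitaryRep e f h) {v : H} {lam : A → ℂ}
    (hv : IsHW e f h v lam) [ContinuousSMul ℂ A] (hQ : Q A ∈ 𝓝 (0 : A)) (x y : A) :
    G e f h v (x + y + x * y) = G e f h v x * G e f h v y := by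
  set g : ℂ → ℂ := fun s => G e f h v (y + s • (x + x * y)) with hg
  set k : ℂ → ℂ := fun s => G e f h v (0 + s • x) with hk
  have hkd : Differentiable ℂ k := differentiable_G hπ v 0 x
  have hgd : Differentiable ℂ g := differentiable_G hπ v y _
  have hev1 : ∀ᶠ s : ℂ in 𝓝 0, s • x ∈ Q A := by
    have : Tendsto (fun s : ℂ => s • x) (𝓝 0) (𝓝 0) := by
      have h1 : Continuous fun s : ℂ => s • x := continuous_id.smul continuous_const
      have h2 := h1.tendsto 0
      rwa [zero_smul] at h2
    exact this hQ
  have heq : g = fun s => k s * G e f h v y := by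
    refine AnalyticOnNhd.eq_of_eventuallyEq (𝕜 := ℂ) (z₀ := 0)
      (fun z _ => hgd.analyticAt z) (fun z _ => (hkd.mul_const _).analyticAt z) ?_
    filter_upwards [hev1] with s hs
    rw [hg, hk]
    simp only [zero_add]
    rw [← mult_aux hπ hv hQ _ y hs, smul_mul_assoc, smul_add]
    congr 1
    abel
  have h1 := congrFun heq 1
  simp only [hg, hk, one_smul, zero_add] at h1
  rw [← h1]
  congr 1
  abel

end Q4.Curr
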